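import Mathlib

open MeasureTheory Set Filter Topology
open scoped ENNReal NNReal ContDiff

set_option maxSynthPendingDepth 3

namespace Pool.Agent.Results.MP_06111c_an.JumpAC
/-! ## Definitions used in the statement -/

/-- Euclidean space. -/
abbrev Rn (n : ℕ) : Type := EuclideanSpace ℝ (Fin n)

/-- The open half ball `{y ∈ B_r(x) : (y - x) · e > 0}`. -/
def halfBall {n : ℕ} (x e : Rn n) (r : ℝ) : Set (Rn n) :=
  {y | y ∈ Metric.ball x r ∧ 0 < inner ℝ (y - x) e}

/-- The jump set `J_u` of `u : Ω → V`: the points `x ∈ Ω` at which `u` has two different one-sided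
approximate limits `a`, `b` (in the `L¹` sense) with respect to some unit direction `e`. -/
def jumpSet {n : ℕ} {V : Type*} [NormedAddCommGroup V] (Ω : Set (Rn n)) (u : Rn n → V) :
    Set (Rn n) :=
  {x | x ∈ Ω ∧ ∃ (a b : V) (e : Rn n), a ≠ b ∧ ‖e‖ = 1 ∧
    Tendsto (fun r : ℝ => (1 / r ^ n) * ∫ y in halfBall x e r, ‖u y - a‖) (𝓝[>] 0) (𝓝 0) ∧
    Tendsto (fun r : ℝ => (1 / r ^ n) * ∫ y in halfBall x (-e) r, ‖u y - b‖) (𝓝[>] 0) (𝓝 0)}

/-- `ν = 𝓑 u` in the sense of distributions in `Ω`, where `𝓑 = ∑ j, B j ∂_j`: for every test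
function `φ ∈ C_c^∞(Ω)`, `∫ φ dν = - ∫_Ω ∑ j, (∂_j φ) (B j u) dx`. -/
def IsWeakImage {n : ℕ} {V W : Type*} [NormedAddCommGroup V] [InnerProductSpace ℝ V]
    [NormedAddCommGroup W] [InnerProductSpace ℝ W] (B : Fin n → V →ₗ[ℝ] W) (Ω : Set (Rn n))
    (u : Rn n → V) (ν : VectorMeasure (Rn n) W) : Prop :=
  ∀ φ : Rn n → ℝ, ContDiff ℝ ∞ φ → HasCompactSupport φ → tsupport φ ⊆ Ω →
    ∫ᵛ x, φ x ∂•ν =
      - ∫ x in Ω, ∑ j, fderiv ℝ φ x (EuclideanSpace.single j (1 : ℝ)) • B j (u x)

/-! ## Auxiliary results -/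



/-- Comparison with Hausdorff measure: a finite measure with upper `d`-density bounded by `K` at all
points of `A` vanishes on the part of `A` inside an `H^d`-null set. -/
lemma measure_inter_eq_zero_of_density {X : Type*} [MetricSpace X] [MeasurableSpace X] [BorelSpace X]
    (μ : Measure X) {d : ℝ} (hd : 0 < d) {K δ : ℝ} (hK : 0 < K) (hδ : 0 < δ) (A N : Set X)
    (hA : ∀ x ∈ A, ∀ r : ℝ, 0 < r → r < δ → μ (Metric.closedBall x r) ≤ ENNReal.ofReal (K * r ^ d))
    (hN : μH[d] N = 0) : μ (N ∩ A) = 0 := by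
  set Kn : ℝ≥0∞ := ENNReal.ofReal K with hKn
  have hKn0 : Kn ≠ 0 := by simp [hKn, hK]
  have hKnt : Kn ≠ ⊤ := ENNReal.ofReal_ne_top
  have key : (Kn⁻¹ • μ.restrict A) ≤ μH[d] := by
    refine Measure.le_hausdorffMeasure d _ (ENNReal.ofReal (δ / 2)) (by simp [hδ]) ?_
    intro s hs
    rw [Measure.smul_apply, smul_eq_mul]
    have h1 : μ.restrict A s ≤ μ (closure s ∩ A) := by
      refine (measure_mono subset_closure).trans ?_
      rw [Measure.restrict_apply isClosed_closure.measurableSet]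
    have hfin : Metric.ediam s ≠ ⊤ := ne_top_of_le_ne_top ENNReal.ofReal_ne_top hs
    have hbdd : Bornology.IsBounded s := Metric.isBounded_iff_ediam_ne_top.2 hfin
    have hdiam : Metric.ediam s = ENNReal.ofReal (Metric.diam s) := by
      rw [Metric.diam, ENNReal.ofReal_toReal hfin]
    have hlt : Metric.diam s < δ := by
      rw [hdiam] at hs
      have := (ENNReal.ofReal_le_ofReal_iff (by linarith)).1 hs
      linarith
    have h2 : μ (closure s ∩ A) ≤ Kn * Metric.ediam s ^ d := by
      rcases (closure s ∩ A).eq_empty_or_nonempty with h | ⟨x, hx1, hx2⟩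
      · rw [h, measure_empty]
        exact zero_le
      · have hsub : closure s ⊆ Metric.closedBall x (Metric.diam s) := by
          intro y hy
          have := Metric.dist_le_diam_of_mem hbdd.closure hy hx1
          rwa [Metric.diam_closure] at this
        rcases lt_or_eq_of_le (Metric.diam_nonneg (s := s)) with h | h
        · refine (measure_mono (inter_subset_left.trans hsub)).trans ?_
          refine (hA x hx2 _ h hlt).trans_eq ?_
          rw [hdiam, ENNReal.ofReal_mul hK.le, ENNReal.ofReal_rpow_of_pos h]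
        · have hsing : closure s ∩ A ⊆ {x} := by
            intro y hy
            have := hsub hy.1
            rw [← h, Metric.closedBall_zero] at this
            exact this
          have hz : μ {x} = 0 := by
            have hlim : Tendsto (fun r : ℝ => ENNReal.ofReal (K * r ^ d)) (𝓝[>] 0) (𝓝 0) := by
              have h1 : Tendsto (fun r : ℝ => K * r ^ d) (𝓝 0) (𝓝 (K * 0 ^ d)) :=
                ((Real.continuousAt_rpow_const 0 d (Or.inr hd.le)).tendsto).const_mul K
              rw [Real.zero_rpow hd.ne', mul_zero] at h1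
              have h2 := ENNReal.tendsto_ofReal h1
              rw [ENNReal.ofReal_zero] at h2
              exact h2.mono_left nhdsWithin_le_nhds
            have hle : ∀ᶠ r in 𝓝[>] (0 : ℝ), μ {x} ≤ ENNReal.ofReal (K * r ^ d) := by
              filter_upwards [Ioo_mem_nhdsGT hδ] with r hr
              refine le_trans (measure_mono ?_) (hA x hx2 r hr.1 hr.2)
              intro y hy
              rw [mem_singleton_iff] at hy
              rw [hy]
              exact Metric.mem_closedBall_self hr.1.le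
            exact le_antisymm (ge_of_tendsto hlim hle) zero_le
          refine (measure_mono hsing).trans ?_
          rw [hz]
          exact zero_le
    calc Kn⁻¹ * μ.restrict A s ≤ Kn⁻¹ * (Kn * Metric.ediam s ^ d) := by gcongr; exact h1.trans h2
      _ = Metric.ediam s ^ d := by
        rw [← mul_assoc, ENNReal.inv_mul_cancel hKn0 hKnt, one_mul]
  have h3 := key N
  rw [hN, Measure.smul_apply, smul_eq_mul] at h3
  have h4 : μ.restrict A N = 0 := by
    have := le_antisymm h3 zero_le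
    rcases mul_eq_zero.1 this with h | h
    · exact absurd (ENNReal.inv_eq_zero.1 h) hKnt
    · exact h
  exact le_antisymm ((Measure.le_restrict_apply A N).trans h4.le) zero_le



/-- Growth lemma: a doubling-type recursive inequality bounds a monotone function by a power. -/
lemma growth_bound (h : ℝ → ℝ) (hmono : Monotone h) {C θ r1 d : ℝ} (hd : 0 ≤ d) (hC : 0 ≤ C)
    (hr1 : 0 < r1) (hθ0 : 0 ≤ θ) (hθ : θ * 2 ^ d ≤ 1 / 2)
    (hrec : ∀ r, 0 < r → r < r1 → h (r / 2) ≤ C * r ^ d + θ * h r) :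
    ∃ K : ℝ, 0 < K ∧ ∀ r, 0 < r → r < r1 → h r ≤ K * r ^ d := by
  have hp : 0 < (r1 / 2) ^ d := Real.rpow_pos_of_pos (by linarith) d
  have h2d : (0 : ℝ) < 2 ^ d := Real.rpow_pos_of_pos (by norm_num) d
  set K : ℝ := max (h r1 / (r1 / 2) ^ d) (2 * (C * 2 ^ d)) + 1 with hK
  have hK1 : h r1 / (r1 / 2) ^ d ≤ K := (le_max_left _ _).trans (by linarith)
  have hK2 : 2 * (C * 2 ^ d) ≤ K := (le_max_right _ _).trans (by linarith)
  have hK0 : 0 < K := by
    have : 0 ≤ 2 * (C * 2 ^ d) := by positivity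
    have h3 := le_max_right (h r1 / (r1 / 2) ^ d) (2 * (C * 2 ^ d))
    linarith
  have step : ∀ k : ℕ, ∀ r, r1 / 2 ^ (k + 1) ≤ r → r < r1 → h r ≤ K * r ^ d := by
    intro k
    induction k with
    | zero =>
      intro r hr hr'
      rw [zero_add, pow_one] at hr
      have e1 : h r ≤ h r1 := hmono hr'.le
      have e2 : h r1 ≤ K * (r1 / 2) ^ d := by
        rwa [div_le_iff₀ hp] at hK1
      have e3 : (r1 / 2) ^ d ≤ r ^ d := Real.rpow_le_rpow (by linarith) hr hd
      have e4 : K * (r1 / 2) ^ d ≤ K * r ^ d := mul_le_mul_of_nonneg_left e3 hK0.le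
      linarith
    | succ k ih =>
      intro r hr hr'
      rcases le_or_gt (r1 / 2 ^ (k + 1)) r with h1 | h1
      · exact ih r h1 hr'
      · have hpos : 0 < r := lt_of_lt_of_le (by positivity) hr
        have e1 : r1 / 2 ^ (k + 1) ≤ 2 * r := by
          have : r1 / 2 ^ (k + 1 + 1) = r1 / 2 ^ (k + 1) / 2 := by
            rw [pow_succ (2 : ℝ) (k + 1)]; field_simp
          rw [this] at hr
          linarith
        have e2 : 2 * r < r1 := by
          have : r1 / 2 ^ (k + 1) ≤ r1 / 2 := by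
            apply div_le_div_of_nonneg_left hr1.le (by norm_num)
            calc (2 : ℝ) = 2 ^ 1 := by norm_num
              _ ≤ 2 ^ (k + 1) := pow_le_pow_right₀ (by norm_num) (by omega)
          linarith
        have e3 := ih (2 * r) e1 e2
        have e4 := hrec (2 * r) (by linarith) e2
        rw [mul_div_cancel_left₀ r (by norm_num : (2 : ℝ) ≠ 0)] at e4
        have e5 : (2 * r) ^ d = 2 ^ d * r ^ d := Real.mul_rpow (by norm_num) hpos.le
        rw [e5] at e3 e4
        have hrd : 0 ≤ r ^ d := (Real.rpow_pos_of_pos hpos d).le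
        have e6 : θ * h (2 * r) ≤ θ * (K * (2 ^ d * r ^ d)) := mul_le_mul_of_nonneg_left e3 hθ0
        have e7 : θ * (K * (2 ^ d * r ^ d)) = (θ * 2 ^ d) * (K * r ^ d) := by ring
        have e8 : (θ * 2 ^ d) * (K * r ^ d) ≤ 1 / 2 * (K * r ^ d) :=
          mul_le_mul_of_nonneg_right hθ (by positivity)
        have e9 : C * (2 ^ d * r ^ d) ≤ K / 2 * r ^ d := by
          have : C * (2 ^ d * r ^ d) = (C * 2 ^ d) * r ^ d := by ring
          rw [this]
          exact mul_le_mul_of_nonneg_right (by linarith) hrd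
        calc h r ≤ C * (2 ^ d * r ^ d) + θ * h (2 * r) := e4
          _ ≤ K / 2 * r ^ d + 1 / 2 * (K * r ^ d) := by linarith
          _ = K * r ^ d := by ring
  refine ⟨K, hK0, fun r hr hr' => ?_⟩
  obtain ⟨k, hk⟩ : ∃ k : ℕ, r1 / r < 2 ^ k := pow_unbounded_of_one_lt _ (by norm_num)
  refine step k r ?_ hr'
  rw [div_le_iff₀ (by positivity)]
  rw [div_lt_iff₀ hr] at hk
  have : (2 : ℝ) ^ k ≤ 2 ^ (k + 1) := pow_le_pow_right₀ (by norm_num) (by omega)
  nlinarith


/-- Rescaled bump functions with controlled gradient. -/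
lemma exists_bumps (n : ℕ) : ∃ C1 : ℝ, 0 ≤ C1 ∧ ∀ (x : Rn n) (r : ℝ), 0 < r →
    ∃ φ : Rn n → ℝ, ContDiff ℝ ∞ φ ∧ HasCompactSupport φ ∧ tsupport φ ⊆ Metric.closedBall x r ∧
      (∀ y, 0 ≤ φ y) ∧ (∀ y, φ y ≤ 1) ∧ (∀ y ∈ Metric.closedBall x (r / 2), φ y = 1) ∧
      (∀ y, ‖fderiv ℝ φ y‖ ≤ r⁻¹ * C1) ∧ (∀ y, y ∉ Metric.closedBall x r → fderiv ℝ φ y = 0) := by
  let ψ : ContDiffBump (0 : Rn n) := ⟨1 / 2, 1, by norm_num, by norm_num⟩
  have hψ : ContDiff ℝ ∞ (ψ : Rn n → ℝ) := ψ.contDiff
  have hψc : HasCompactSupport (ψ : Rn n → ℝ) := ψ.hasCompactSupport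
  obtain ⟨C1, hC1⟩ := (hψ.continuous_fderiv (by simp)).bounded_above_of_compact_support
    (hψc.fderiv (𝕜 := ℝ))
  refine ⟨C1, (norm_nonneg _).trans (hC1 0), ?_⟩
  intro x r hr
  let φ : Rn n → ℝ := fun y => ψ (r⁻¹ • (y - x))
  have hdist : ∀ y : Rn n, dist (r⁻¹ • (y - x)) 0 = r⁻¹ * dist y x := by
    intro y
    rw [dist_zero_right, norm_smul, Real.norm_eq_abs, abs_of_pos (inv_pos.2 hr), dist_eq_norm]
  have hφ : ContDiff ℝ ∞ φ := hψ.comp (by fun_prop)
  have hsub : tsupport φ ⊆ Metric.closedBall x r := by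
    refine closure_minimal ?_ Metric.isClosed_closedBall
    intro y hy
    by_contra hcon
    rw [Metric.mem_closedBall, not_le] at hcon
    apply hy
    apply ψ.zero_of_le_dist
    rw [hdist]
    show (1 : ℝ) ≤ r⁻¹ * dist y x
    rw [← inv_mul_cancel₀ hr.ne']
    exact mul_le_mul_of_nonneg_left hcon.le (inv_pos.2 hr).le
  have hcs : HasCompactSupport φ :=
    HasCompactSupport.of_support_subset_isCompact (isCompact_closedBall x r)
      ((subset_tsupport φ).trans hsub)
  have hfd : ∀ y, fderiv ℝ φ y = r⁻¹ • fderiv ℝ (ψ : Rn n → ℝ) (r⁻¹ • (y - x)) := by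
    intro y
    have h1 : HasFDerivAt (fun y : Rn n => r⁻¹ • (y - x)) (r⁻¹ • ContinuousLinearMap.id ℝ (Rn n)) y :=
      ((hasFDerivAt_id y).sub_const x).const_smul r⁻¹
    have h2 : HasFDerivAt (ψ : Rn n → ℝ) (fderiv ℝ (ψ : Rn n → ℝ) (r⁻¹ • (y - x))) (r⁻¹ • (y - x)) :=
      (hψ.differentiable (by simp)).differentiableAt.hasFDerivAt
    have h3 := h2.comp y h1
    have h4 : HasFDerivAt φ _ y := h3
    rw [h4.fderiv]
    ext v
    simp
  refine ⟨φ, hφ, hcs, hsub, fun y => ψ.nonneg, fun y => ψ.le_one, ?_, ?_, ?_⟩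
  · intro y hy
    apply ψ.one_of_mem_closedBall
    rw [Metric.mem_closedBall, hdist]
    rw [Metric.mem_closedBall] at hy
    show r⁻¹ * dist y x ≤ 1 / 2
    rw [inv_mul_le_iff₀ hr]
    linarith
  · intro y
    rw [hfd, norm_smul, Real.norm_eq_abs, abs_of_pos (inv_pos.2 hr)]
    exact mul_le_mul_of_nonneg_left (hC1 _) (inv_pos.2 hr).le
  · intro y hy
    have : y ∉ tsupport φ := fun h => hy (hsub h)
    exact image_eq_zero_of_notMem_tsupport (fun h => this (tsupport_fderiv_subset ℝ h))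


section Scalar

variable {n : ℕ} {V : Type*} [NormedAddCommGroup V] [InnerProductSpace ℝ V]

/-- The scalar weak identity `div (L u) = p - q` in `Ω`. -/
def ScalarDist (p q : Measure (Rn n)) (L : Fin n → V →L[ℝ] ℝ) (Ω : Set (Rn n)) (u : Rn n → V) :
    Prop :=
  ∀ φ : Rn n → ℝ, ContDiff ℝ ∞ φ → HasCompactSupport φ → tsupport φ ⊆ Ω →
    ∫ x, φ x ∂p - ∫ x, φ x ∂q =
      - ∫ x in Ω, ∑ j, fderiv ℝ φ x (EuclideanSpace.single j (1 : ℝ)) * L j (u x)

lemma ScalarDist.symm {p q : Measure (Rn n)} {L : Fin n → V →L[ℝ] ℝ} {Ω : Set (Rn n)}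
    {u : Rn n → V} (h : ScalarDist p q L Ω u) : ScalarDist q p (fun j => - L j) Ω u := by
  intro φ h1 h2 h3
  have h4 := h φ h1 h2 h3
  have h5 : ∫ x in Ω, ∑ j, fderiv ℝ φ x (EuclideanSpace.single j (1 : ℝ)) * (- L j) (u x) =
      - ∫ x in Ω, ∑ j, fderiv ℝ φ x (EuclideanSpace.single j (1 : ℝ)) * L j (u x) := by
    rw [← integral_neg]
    congr 1
    ext x
    rw [← Finset.sum_neg_distrib]
    refine Finset.sum_congr rfl fun j _ => ?_
    simp
  rw [h5]
  linarith

/-- Upper estimate of the positive part by the negative part on a larger ball. -/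
lemma ball_estimate (p q : Measure (Rn n)) [IsFiniteMeasure p] [IsFiniteMeasure q]
    (L : Fin n → V →L[ℝ] ℝ) {Ω : Set (Rn n)} (hΩ : MeasurableSet Ω) {u : Rn n → V}
    (hu : IntegrableOn u Ω)
    (hd : ScalarDist p q L Ω u) :
    ∃ C2 : ℝ, 0 ≤ C2 ∧ ∀ (x : Rn n) (r C0 : ℝ), 0 < r → Metric.closedBall x r ⊆ Ω →
      ∫ y in Metric.closedBall x r, ‖u y‖ ≤ C0 * r ^ n →
      p.real (Metric.closedBall x (r / 2)) ≤
        C2 * C0 * r ^ ((n : ℝ) - 1) + q.real (Metric.closedBall x r) := by
  obtain ⟨C1, hC1, hbump⟩ := exists_bumps n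
  set Λ : ℝ := ∑ j, ‖L j‖ with hΛ
  have hΛ0 : 0 ≤ Λ := Finset.sum_nonneg fun j _ => norm_nonneg _
  refine ⟨C1 * Λ, mul_nonneg hC1 hΛ0, ?_⟩
  intro x r C0 hr hsub hgrow
  obtain ⟨φ, hφ, hφc, hφs, hφ0, hφ1, hφeq, hφd, hφd0⟩ := hbump x r hr
  have hid := hd φ hφ hφc (hφs.trans hsub)
  have hφz : ∀ y, y ∉ Metric.closedBall x r → φ y = 0 := fun y hy =>
    image_eq_zero_of_notMem_tsupport (fun h => hy (hφs h))
  have hint : ∀ m : Measure (Rn n), IsFiniteMeasure m → Integrable φ m := fun m _ =>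
    hφ.continuous.integrable_of_hasCompactSupport hφc
  -- lower bound for the integral against `p`
  have hlow : p.real (Metric.closedBall x (r / 2)) ≤ ∫ y, φ y ∂p := by
    rw [← integral_indicator_one Metric.isClosed_closedBall.measurableSet]
    refine integral_mono ?_ (hint p inferInstance) ?_
    · exact (integrable_const (1 : ℝ)).indicator Metric.isClosed_closedBall.measurableSet
    · intro y
      by_cases hy : y ∈ Metric.closedBall x (r / 2)
      · rw [indicator_of_mem hy, hφeq y hy]; rfl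
      · rw [indicator_of_notMem hy]; exact hφ0 y
  -- upper bound for the integral against `q`
  have hup : ∫ y, φ y ∂q ≤ q.real (Metric.closedBall x r) := by
    rw [← integral_indicator_one Metric.isClosed_closedBall.measurableSet]
    refine integral_mono (hint q inferInstance) ?_ ?_
    · exact (integrable_const (1 : ℝ)).indicator Metric.isClosed_closedBall.measurableSet
    · intro y
      by_cases hy : y ∈ Metric.closedBall x r
      · rw [indicator_of_mem hy]; exact hφ1 y
      · rw [indicator_of_notMem hy, hφz y hy]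
  -- the right-hand side
  have hrhs : |∫ y in Ω, ∑ j, fderiv ℝ φ y (EuclideanSpace.single j (1 : ℝ)) * L j (u y)| ≤
      r⁻¹ * C1 * Λ * ∫ y in Metric.closedBall x r, ‖u y‖ := by
    have hg : Integrable ((Metric.closedBall x r).indicator (fun y => r⁻¹ * C1 * Λ * ‖u y‖))
        (volume.restrict Ω) :=
      (hu.norm.const_mul _).indicator Metric.isClosed_closedBall.measurableSet
    have hle := norm_integral_le_of_norm_le (μ := volume.restrict Ω)
      (f := fun y => ∑ j, fderiv ℝ φ y (EuclideanSpace.single j (1 : ℝ)) * L j (u y)) hg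
      (Eventually.of_forall fun y => by
        by_cases hy : y ∈ Metric.closedBall x r
        · rw [indicator_of_mem hy]
          calc ‖∑ j, fderiv ℝ φ y (EuclideanSpace.single j (1 : ℝ)) * L j (u y)‖
              ≤ ∑ j, ‖fderiv ℝ φ y (EuclideanSpace.single j (1 : ℝ)) * L j (u y)‖ :=
                norm_sum_le _ _
            _ ≤ ∑ j, r⁻¹ * C1 * (‖L j‖ * ‖u y‖) := by
                refine Finset.sum_le_sum fun j _ => ?_
                rw [norm_mul]
                refine mul_le_mul ?_ ((L j).le_opNorm _) (norm_nonneg _) ?_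
                · calc ‖fderiv ℝ φ y (EuclideanSpace.single j (1 : ℝ))‖
                      ≤ ‖fderiv ℝ φ y‖ * ‖EuclideanSpace.single j (1 : ℝ)‖ :=
                        (fderiv ℝ φ y).le_opNorm _
                    _ = ‖fderiv ℝ φ y‖ := by
                        rw [PiLp.norm_single, norm_one, mul_one]
                    _ ≤ r⁻¹ * C1 := hφd y
                · exact mul_nonneg (inv_pos.2 hr).le hC1
            _ = r⁻¹ * C1 * Λ * ‖u y‖ := by
                rw [← Finset.mul_sum, ← Finset.sum_mul, hΛ]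
                ring
        · rw [indicator_of_notMem hy]
          rw [hφd0 y hy]
          simp)
    rw [Real.norm_eq_abs] at hle
    refine hle.trans_eq ?_
    rw [setIntegral_indicator Metric.isClosed_closedBall.measurableSet,
      inter_eq_self_of_subset_right hsub, integral_const_mul]
  have hpow : r⁻¹ * r ^ n = r ^ ((n : ℝ) - 1) := by
    rw [Real.rpow_sub_one hr.ne', Real.rpow_natCast]
    field_simp
  have hfin : r⁻¹ * C1 * Λ * ∫ y in Metric.closedBall x r, ‖u y‖ ≤
      C1 * Λ * C0 * r ^ ((n : ℝ) - 1) := by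
    have h1 : r⁻¹ * C1 * Λ * ∫ y in Metric.closedBall x r, ‖u y‖ ≤
        r⁻¹ * C1 * Λ * (C0 * r ^ n) :=
      mul_le_mul_of_nonneg_left hgrow
        (mul_nonneg (mul_nonneg (inv_pos.2 hr).le hC1) hΛ0)
    refine h1.trans_eq ?_
    rw [← hpow]
    ring
  have habs := neg_le_abs (∫ y in Ω, ∑ j, fderiv ℝ φ y (EuclideanSpace.single j (1 : ℝ)) * L j (u y))
  linarith

/-- At almost every point the part concentrated on the other Hahn set has density zero. -/
lemma density_zero (p q : Measure (Rn n)) [IsFiniteMeasure p] [IsFiniteMeasure q]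
    {i : Set (Rn n)} (hi : MeasurableSet i) (hq : q i = 0) :
    ∀ᵐ x ∂(p + q), x ∈ i → ∀ η : ℝ, 0 < η → ∃ r1 : ℝ, 0 < r1 ∧ ∀ r, 0 < r → r < r1 →
      q.real (Metric.closedBall x r) ≤ η * (p + q).real (Metric.closedBall x r) := by
  filter_upwards [Besicovitch.ae_tendsto_measure_inter_div_of_measurableSet (p + q) hi.compl]
    with x hx hxi η hη
  rw [indicator_of_notMem (by simpa using hxi)] at hx
  have hev := (hx.eventually_lt_const (ENNReal.ofReal_pos.2 hη))
  rw [eventually_nhdsWithin_iff, Metric.eventually_nhds_iff] at hev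
  obtain ⟨r1, hr1, hr⟩ := hev
  refine ⟨r1, hr1, fun r hr0 hrr => ?_⟩
  have h1 := hr (y := r) (by rw [Real.dist_0_eq_abs, abs_of_pos hr0]; exact hrr) hr0
  have h2 : q (Metric.closedBall x r) ≤ (p + q) (iᶜ ∩ Metric.closedBall x r) := by
    calc q (Metric.closedBall x r) ≤ q (i ∪ iᶜ ∩ Metric.closedBall x r) := by
          apply measure_mono
          intro y hy
          by_cases h : y ∈ i
          · exact Or.inl h
          · exact Or.inr ⟨h, hy⟩
      _ ≤ q i + q (iᶜ ∩ Metric.closedBall x r) := measure_union_le _ _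
      _ = q (iᶜ ∩ Metric.closedBall x r) := by rw [hq, zero_add]
      _ ≤ (p + q) (iᶜ ∩ Metric.closedBall x r) := by
          rw [Measure.add_apply]; exact le_add_self
  have h3 : (p + q) (iᶜ ∩ Metric.closedBall x r) ≤
      ENNReal.ofReal η * (p + q) (Metric.closedBall x r) := by
    rcases eq_or_ne ((p + q) (Metric.closedBall x r)) 0 with h0 | h0
    · rw [h0, mul_zero]
      exact (measure_mono inter_subset_right).trans h0.le
    · exact (ENNReal.div_le_iff h0 (measure_ne_top _ _)).1 h1.le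
  have h4 := h2.trans h3
  have h5 := ENNReal.toReal_mono (by
    exact ENNReal.mul_ne_top ENNReal.ofReal_ne_top (measure_ne_top _ _)) h4
  rw [ENNReal.toReal_mul, ENNReal.toReal_ofReal hη.le] at h5
  exact h5

/-- Points at which the averages of `|u|` over small balls are bounded. -/
def growthSet (Ω : Set (Rn n)) (u : Rn n → V) : Set (Rn n) :=
  {x | x ∈ Ω ∧ ∃ C r0 : ℝ, 0 < r0 ∧ ∀ r, 0 < r → r < r0 →
    ∫ y in Metric.closedBall x r, ‖u y‖ ≤ C * r ^ n}

lemma finite_density (hn : 2 ≤ n) (p q : Measure (Rn n)) [IsFiniteMeasure p] [IsFiniteMeasure q]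
    (L : Fin n → V →L[ℝ] ℝ) {Ω : Set (Rn n)} (hΩ : IsOpen Ω) {u : Rn n → V}
    (hu : IntegrableOn u Ω) (hd : ScalarDist p q L Ω u) {x : Rn n} (hx : x ∈ growthSet Ω u)
    (hdens : ∀ η : ℝ, 0 < η → ∃ r1 : ℝ, 0 < r1 ∧ ∀ r, 0 < r → r < r1 →
      q.real (Metric.closedBall x r) ≤ η * (p + q).real (Metric.closedBall x r)) :
    ∃ K r1 : ℝ, 0 < K ∧ 0 < r1 ∧ ∀ r, 0 < r → r < r1 →
      (p + q).real (Metric.closedBall x r) ≤ K * r ^ ((n : ℝ) - 1) := by
  obtain ⟨C2, hC2, hest⟩ := ball_estimate p q L hΩ.measurableSet hu hd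
  obtain ⟨hxΩ, C0, r0, hr0, hgrow⟩ := hx
  have hn' : (2 : ℝ) ≤ n := by exact_mod_cast hn
  set d : ℝ := (n : ℝ) - 1 with hdd
  have h2d : (0 : ℝ) < 2 ^ d := Real.rpow_pos_of_pos (by norm_num) d
  obtain ⟨r1, hr1, hq⟩ := hdens (1 / (4 * 2 ^ d)) (by positivity)
  obtain ⟨r2, hr2, hball⟩ := Metric.isOpen_iff.1 hΩ x hxΩ
  set ρ := min (min r0 r1) r2 with hρ
  have hρ0 : 0 < ρ := lt_min (lt_min hr0 hr1) hr2
  have hmono : Monotone (fun r => (p + q).real (Metric.closedBall x r)) := fun r s hrs =>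
    measureReal_mono (Metric.closedBall_subset_closedBall hrs)
  obtain ⟨K, hK, hbd⟩ := growth_bound (fun r => (p + q).real (Metric.closedBall x r)) hmono
    (C := C2 * |C0|) (θ := 2 * (1 / (4 * 2 ^ d))) (r1 := ρ) (d := d) (by linarith)
    (mul_nonneg hC2 (abs_nonneg _)) hρ0 (by positivity)
    (by
      have : 2 * (1 / (4 * (2 : ℝ) ^ d)) * 2 ^ d = 1 / 2 := by field_simp; norm_num
      exact this.le)
    (by
      intro r hr hrρ
      have hrr0 : r < r0 := hrρ.trans_le ((min_le_left _ _).trans (min_le_left _ _))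
      have hrr1 : r < r1 := hrρ.trans_le ((min_le_left _ _).trans (min_le_right _ _))
      have hrr2 : r < r2 := hrρ.trans_le (min_le_right _ _)
      have hsub : Metric.closedBall x r ⊆ Ω :=
        (Metric.closedBall_subset_ball hrr2).trans hball
      have e1 := hest x r |C0| hr hsub ((hgrow r hr hrr0).trans
        (mul_le_mul_of_nonneg_right (le_abs_self _) (by positivity)))
      have e2 := hq r hr hrr1
      have e3 : q.real (Metric.closedBall x (r / 2)) ≤ q.real (Metric.closedBall x r) :=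
        measureReal_mono (Metric.closedBall_subset_closedBall (by linarith))
      have e4 : (p + q).real (Metric.closedBall x (r / 2)) =
          p.real (Metric.closedBall x (r / 2)) + q.real (Metric.closedBall x (r / 2)) :=
        measureReal_add_apply
      show (p + q).real (Metric.closedBall x (r / 2)) ≤ _
      rw [e4]
      linarith)
  exact ⟨K, ρ, hK, hρ0, hbd⟩

/-- Main scalar statement. -/
lemma scalar_main (hn : 2 ≤ n) (p q : Measure (Rn n)) [IsFiniteMeasure p] [IsFiniteMeasure q]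
    {i : Set (Rn n)} (hi : MeasurableSet i) (hp0 : p iᶜ = 0) (hq0 : q i = 0)
    (L : Fin n → V →L[ℝ] ℝ) {Ω : Set (Rn n)} (hΩ : IsOpen Ω) {u : Rn n → V}
    (hu : IntegrableOn u Ω) (hd : ScalarDist p q L Ω u) {N : Set (Rn n)}
    (hN : N ⊆ growthSet Ω u) (hH : μH[(n : ℝ) - 1] N = 0) : (p + q) N = 0 := by
  have hn' : (2 : ℝ) ≤ n := by exact_mod_cast hn
  set A : ℕ → Set (Rn n) := fun k => {x | ∀ r : ℝ, 0 < r → r < 1 / ((k : ℝ) + 1) →
    (p + q) (Metric.closedBall x r) ≤ ENNReal.ofReal (((k : ℝ) + 1) * r ^ ((n : ℝ) - 1))} with hA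
  have hzero : ∀ k, (p + q) (N ∩ A k) = 0 := fun k =>
    measure_inter_eq_zero_of_density (p + q) (d := (n : ℝ) - 1) (by linarith)
      (K := (k : ℝ) + 1) (δ := 1 / ((k : ℝ) + 1)) (by positivity) (by positivity) (A k) N
      (fun x hx => hx) hH
  have hdens1 := density_zero p q hi hq0
  have hdens2 := density_zero q p hi.compl hp0
  rw [add_comm q p] at hdens2
  have hae : ∀ᵐ x ∂(p + q), x ∈ N → x ∈ ⋃ k, N ∩ A k := by
    filter_upwards [hdens1, hdens2] with x h1 h2 hxN
    obtain ⟨K, r1, hK, hr1, hbd⟩ : ∃ K r1 : ℝ, 0 < K ∧ 0 < r1 ∧ ∀ r, 0 < r → r < r1 →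
        (p + q).real (Metric.closedBall x r) ≤ K * r ^ ((n : ℝ) - 1) := by
      by_cases hxi : x ∈ i
      · exact finite_density hn p q L hΩ hu hd (hN hxN) (h1 hxi)
      · have h3 := finite_density hn q p (fun j => - L j) hΩ hu hd.symm (hN hxN)
          (by rw [add_comm q p]; exact h2 hxi)
        rwa [add_comm q p] at h3
    obtain ⟨k, hk⟩ := exists_nat_ge (max K (1 / r1))
    refine mem_iUnion.2 ⟨k, hxN, ?_⟩
    intro r hr hrk
    have hk1 : K ≤ (k : ℝ) + 1 := by linarith [(le_max_left K (1 / r1)).trans hk]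
    have hk2 : 1 / ((k : ℝ) + 1) ≤ r1 := by
      rw [div_le_iff₀ (by positivity)]
      have h3 : 1 / r1 ≤ k := (le_max_right K (1 / r1)).trans hk
      rw [div_le_iff₀ hr1] at h3
      linarith
    have h4 := hbd r hr (hrk.trans_le hk2)
    have hrd : 0 ≤ r ^ ((n : ℝ) - 1) := (Real.rpow_pos_of_pos hr _).le
    have h5 : (p + q).real (Metric.closedBall x r) ≤ ((k : ℝ) + 1) * r ^ ((n : ℝ) - 1) :=
      h4.trans (mul_le_mul_of_nonneg_right hk1 hrd)
    rw [← ofReal_measureReal]
    exact ENNReal.ofReal_le_ofReal h5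
  have hU : (p + q) (⋃ k, N ∩ A k) = 0 := measure_iUnion_null hzero
  refine le_antisymm ?_ zero_le
  calc (p + q) N ≤ (p + q) ((⋃ k, N ∩ A k) ∪ {x | ¬ (x ∈ N → x ∈ ⋃ k, N ∩ A k)}) := by
        apply measure_mono
        intro x hx
        by_cases h : x ∈ ⋃ k, N ∩ A k
        · exact Or.inl h
        · exact Or.inr (fun h' => h (h' hx))
    _ ≤ (p + q) (⋃ k, N ∩ A k) + (p + q) {x | ¬ (x ∈ N → x ∈ ⋃ k, N ∩ A k)} :=
        measure_union_le _ _
    _ = 0 := by
        rw [hU, zero_add]
        exact hae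

end Scalar




section VM

variable {n : ℕ} {W : Type*} [NormedAddCommGroup W] [InnerProductSpace ℝ W] [FiniteDimensional ℝ W]

/-- Scalar component of a vector measure. -/
noncomputable def comp (ν : VectorMeasure (Rn n) W) (l : W →L[ℝ] ℝ) : SignedMeasure (Rn n) :=
  ν.mapRange l.toLinearMap.toAddMonoidHom l.continuous

lemma comp_apply (ν : VectorMeasure (Rn n) W) (l : W →L[ℝ] ℝ) (s : Set (Rn n)) :
    comp ν l s = l (ν s) := rfl

lemma variation_le_sum (ν : VectorMeasure (Rn n) W) :
    ν.variation ≤ Measure.sum (fun i : Fin (Module.finrank ℝ W) =>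
      (comp ν (innerSL ℝ (stdOrthonormalBasis ℝ W i))).totalVariation) := by
  refine VectorMeasure.variation_le_of_forall_enorm_le (fun E hE => ?_)
  rw [Measure.sum_apply _ hE, tsum_fintype]
  have h1 : ‖ν E‖ ≤ ∑ i, ‖comp ν (innerSL ℝ (stdOrthonormalBasis ℝ W i)) E‖ := by
    conv_lhs => rw [← (stdOrthonormalBasis ℝ W).sum_repr' (ν E)]
    refine (norm_sum_le _ _).trans (Finset.sum_le_sum fun i _ => ?_)
    rw [norm_smul, OrthonormalBasis.norm_eq_one, mul_one]
    exact le_rfl
  calc ‖ν E‖ₑ = ENNReal.ofReal ‖ν E‖ := (ofReal_norm _).symm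
    _ ≤ ENNReal.ofReal (∑ i, ‖comp ν (innerSL ℝ (stdOrthonormalBasis ℝ W i)) E‖) :=
        ENNReal.ofReal_le_ofReal h1
    _ = ∑ i, ENNReal.ofReal ‖comp ν (innerSL ℝ (stdOrthonormalBasis ℝ W i)) E‖ :=
        ENNReal.ofReal_sum_of_nonneg fun i _ => norm_nonneg _
    _ ≤ ∑ i, (comp ν (innerSL ℝ (stdOrthonormalBasis ℝ W i))).totalVariation E := by
        refine Finset.sum_le_sum fun i _ => ?_
        rw [ofReal_norm]
        exact SignedMeasure.enorm_le_totalVariation _ _

instance finite_variation (ν : VectorMeasure (Rn n) W) : IsFiniteMeasure ν.variation := by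
  refine ⟨lt_of_le_of_lt (variation_le_sum ν univ) ?_⟩
  rw [Measure.sum_apply _ MeasurableSet.univ, tsum_fintype]
  exact ENNReal.sum_lt_top.2 fun i _ => measure_lt_top _ _

omit [InnerProductSpace ℝ W] [FiniteDimensional ℝ W] in
lemma setToFun_congr_vm {X E G : Type*} [MeasurableSpace X] [NormedAddCommGroup E]
    [NormedSpace ℝ E] [NormedAddCommGroup G] [NormedSpace ℝ G]
    {μ₁ μ₂ : VectorMeasure X (E →L[ℝ] G)} (h : μ₁ = μ₂)
    (h₁ : DominatedFinMeasAdditive μ₁.variation (fun s => μ₁ s) 1)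
    (h₂ : DominatedFinMeasAdditive μ₂.variation (fun s => μ₂ s) 1) (f : X → E) :
    setToFun μ₁.variation (fun s => μ₁ s) h₁ f = setToFun μ₂.variation (fun s => μ₂ s) h₂ f := by
  subst h
  rfl

/-- Component of the integral of a scalar function against a vector measure. -/
lemma apply_integral (ν : VectorMeasure (Rn n) W) (l : W →L[ℝ] ℝ) {φ : Rn n → ℝ}
    (hφ : Continuous φ) (hc : HasCompactSupport φ) :
    l (∫ᵛ x, φ x ∂•ν) = ∫ x, φ x ∂(comp ν l).toJordanDecomposition.posPart -
      ∫ x, φ x ∂(comp ν l).toJordanDecomposition.negPart := by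
  have hint : ∀ m : Measure (Rn n), IsFiniteMeasure m → Integrable φ m := fun m _ =>
    hφ.integrable_of_hasCompactSupport hc
  have h1 : Integrable φ ν.variation := hint _ inferInstance
  have h2 : Integrable φ (comp ν l).variation := hint _ inferInstance
  have h3 : l (∫ᵛ x, φ x ∂•ν) = ∫ᵛ x, φ x ∂•(comp ν l) := by
    rw [VectorMeasure.continuousLinearMap_apply_integral h1,
      VectorMeasure.integral_eq_setToFun_transpose h1,
      VectorMeasure.integral_eq_setToFun_transpose h2]
    apply setToFun_congr_vm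
    ext s hs
    simp only [VectorMeasure.transpose, VectorMeasure.mapRange_apply]
    show l ((1 : ℝ) • ν s) = (1 : ℝ) • l (ν s)
    rw [one_smul, one_smul]
  rw [h3]
  set J := (comp ν l).toJordanDecomposition with hJ
  have h4 : comp ν l = J.posPart.toSignedMeasure - J.negPart.toSignedMeasure :=
    ((comp ν l).toSignedMeasure_toJordanDecomposition).symm
  have hp : Integrable φ (J.posPart.toSignedMeasure).variation := hint _ inferInstance
  have hn : Integrable φ (J.negPart.toSignedMeasure).variation := hint _ inferInstance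
  have h5 : ∫ᵛ x, φ x ∂•(comp ν l) =
      ∫ᵛ x, φ x ∂•(J.posPart.toSignedMeasure - J.negPart.toSignedMeasure) := by
    congr 1
  rw [h5, VectorMeasure.integral_sub_vectorMeasure hp hn]
  have h6 : (ContinuousLinearMap.lsmul ℝ ℝ : ℝ →L[ℝ] ℝ →L[ℝ] ℝ) =
      (ContinuousLinearMap.lsmul ℝ ℝ : ℝ →L[ℝ] ℝ →L[ℝ] ℝ).flip := by
    ext
    simp
  rw [h6, VectorMeasure.integral_toSignedMeasure, VectorMeasure.integral_toSignedMeasure]

end VM


section Final

variable {n : ℕ} {V : Type*} [NormedAddCommGroup V] [InnerProductSpace ℝ V]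

lemma volume_hyperplane (x : Rn n) {e : Rn n} (he : ‖e‖ = 1) :
    volume {y : Rn n | inner ℝ (y - x) e = 0} = 0 := by
  set S : Submodule ℝ (Rn n) := LinearMap.ker (innerSL ℝ e : Rn n →L[ℝ] ℝ).toLinearMap with hS
  have hne : S ≠ ⊤ := by
    intro h
    have h1 : e ∈ S := by rw [h]; trivial
    rw [hS, LinearMap.mem_ker] at h1
    have h2 : (inner ℝ e e : ℝ) = 0 := h1
    rw [real_inner_self_eq_norm_sq, he] at h2
    norm_num at h2
  have h1 := Measure.addHaar_submodule (volume : Measure (Rn n)) S hne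
  have h2 : {y : Rn n | inner ℝ (y - x) e = 0} = (fun y => y + (-x)) ⁻¹' (S : Set (Rn n)) := by
    ext y
    simp only [mem_ofPred_eq, mem_preimage, SetLike.mem_coe, hS, LinearMap.mem_ker]
    show inner ℝ (y - x) e = 0 ↔ inner ℝ e (y + -x) = 0
    rw [real_inner_comm, ← sub_eq_add_neg]
  rw [h2, measure_preimage_add_right, h1]

lemma measurableSet_halfBall (x e : Rn n) (r : ℝ) : MeasurableSet (halfBall x e r) := by
  have h : IsOpen {y : Rn n | 0 < inner ℝ (y - x) e} :=
    isOpen_lt continuous_const (by fun_prop)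
  exact (Metric.isOpen_ball.inter h).measurableSet

lemma halfBall_subset (x e : Rn n) (r : ℝ) : halfBall x e r ⊆ Metric.ball x r := fun _ hy => hy.1

/-- The integral over a half ball. -/
lemma halfBall_bound {Ω : Set (Rn n)} {u : Rn n → V} (hu : IntegrableOn u Ω) (x e : Rn n) (a : V)
    {r : ℝ} (hsub : Metric.ball x r ⊆ Ω) :
    ∫ y in halfBall x e r, ‖u y‖ ≤
      (∫ y in halfBall x e r, ‖u y - a‖) + ‖a‖ * volume.real (Metric.ball x r) := by
  have hfin : volume (halfBall x e r) ≠ ⊤ :=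
    ((measure_mono (halfBall_subset x e r)).trans_lt measure_ball_lt_top).ne
  have hI : IntegrableOn u (halfBall x e r) := hu.mono_set ((halfBall_subset x e r).trans hsub)
  have hc : IntegrableOn (fun _ : Rn n => a) (halfBall x e r) := integrableOn_const hfin
  have hcn : IntegrableOn (fun _ : Rn n => ‖a‖) (halfBall x e r) := integrableOn_const hfin
  have h1 : ∫ y in halfBall x e r, ‖u y‖ ≤ ∫ y in halfBall x e r, (‖u y - a‖ + ‖a‖) := by
    refine integral_mono hI.norm ((hI.sub hc).norm.add hcn) (fun y => ?_)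
    have := norm_add_le (u y - a) a
    simpa using this
  have h2 : ∫ y in halfBall x e r, (‖u y - a‖ + ‖a‖) =
      (∫ y in halfBall x e r, ‖u y - a‖) + ∫ y in halfBall x e r, ‖a‖ :=
    integral_add (hI.sub hc).norm hcn
  have h3 : ∫ y in halfBall x e r, ‖a‖ ≤ ‖a‖ * volume.real (Metric.ball x r) := by
    rw [setIntegral_const, smul_eq_mul, mul_comm]
    exact mul_le_mul_of_nonneg_left
      (measureReal_mono (halfBall_subset x e r) measure_ball_lt_top.ne) (norm_nonneg _)
  linarith

lemma jumpSet_subset_growthSet {Ω : Set (Rn n)} (hΩ : IsOpen Ω) {u : Rn n → V}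
    (hu : IntegrableOn u Ω) : jumpSet Ω u ⊆ growthSet Ω u := by
  rintro x ⟨hx, a, b, e, -, he, ha, hb⟩
  obtain ⟨r2, hr2, hball⟩ := Metric.isOpen_iff.1 hΩ x hx
  have hev : ∀ᶠ r in 𝓝[>] (0 : ℝ), (1 / r ^ n) * ∫ y in halfBall x e r, ‖u y - a‖ < 1 ∧
      (1 / r ^ n) * ∫ y in halfBall x (-e) r, ‖u y - b‖ < 1 :=
    (ha.eventually_lt_const one_pos).and (hb.eventually_lt_const one_pos)
  rw [eventually_nhdsWithin_iff, Metric.eventually_nhds_iff] at hev
  obtain ⟨r3, hr3, hr⟩ := hev
  set c : ℝ := volume.real (Metric.ball (0 : Rn n) 1) with hc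
  refine ⟨hx, (2 + (‖a‖ + ‖b‖) * c) * 2 ^ n, min r2 r3 / 2, by positivity, ?_⟩
  intro r hr0 hrr
  have h2r2 : 2 * r < r2 := by
    have := min_le_left r2 r3
    linarith
  have h2r3 : 2 * r < r3 := by
    have := min_le_right r2 r3
    linarith
  have h2r : 0 < 2 * r := by linarith
  obtain ⟨h1, h2⟩ := hr (y := 2 * r) (by rw [Real.dist_0_eq_abs, abs_of_pos h2r]; exact h2r3) h2r
  have hpow : 0 < (2 * r) ^ n := by positivity
  rw [one_div, inv_mul_lt_iff₀ hpow, mul_one] at h1 h2
  have hsub : Metric.ball x (2 * r) ⊆ Ω := (Metric.ball_subset_ball h2r2.le).trans hball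
  have hIb : IntegrableOn u (Metric.ball x (2 * r)) := hu.mono_set hsub
  have hle1 : ∫ y in Metric.closedBall x r, ‖u y‖ ≤ ∫ y in Metric.ball x (2 * r), ‖u y‖ :=
    setIntegral_mono_set hIb.norm (Eventually.of_forall fun y => norm_nonneg _)
      (Metric.closedBall_subset_ball (by linarith)).eventuallyLE
  have hae : (Metric.ball x (2 * r) : Set (Rn n)) =ᵐ[volume]
      (halfBall x e (2 * r) ∪ halfBall x (-e) (2 * r) : Set (Rn n)) := by
    rw [ae_eq_set]
    constructor
    · refine measure_mono_null ?_ (volume_hyperplane x he)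
      rintro y ⟨hy1, hy2⟩
      show inner ℝ (y - x) e = 0
      by_contra hne
      apply hy2
      rcases lt_or_gt_of_ne hne with h | h
      · right
        refine ⟨hy1, ?_⟩
        rw [inner_neg_right]
        linarith
      · left
        exact ⟨hy1, h⟩
    · rw [Set.sdiff_eq_empty.2, measure_empty]
      exact union_subset (halfBall_subset _ _ _) (halfBall_subset _ _ _)
  have hdisj : Disjoint (halfBall x e (2 * r)) (halfBall x (-e) (2 * r)) := by
    rw [Set.disjoint_left]
    rintro y ⟨-, hy1⟩ ⟨-, hy2⟩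
    rw [inner_neg_right] at hy2
    linarith
  have hsum : ∫ y in Metric.ball x (2 * r), ‖u y‖ =
      (∫ y in halfBall x e (2 * r), ‖u y‖) + ∫ y in halfBall x (-e) (2 * r), ‖u y‖ := by
    rw [setIntegral_congr_set hae, setIntegral_union hdisj (measurableSet_halfBall _ _ _)
      (hIb.mono_set (halfBall_subset _ _ _)).norm (hIb.mono_set (halfBall_subset _ _ _)).norm]
  have hA := halfBall_bound hu x e a hsub
  have hB := halfBall_bound hu x (-e) b hsub
  have hvol : volume.real (Metric.ball x (2 * r)) = (2 * r) ^ n * c := by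
    rw [hc, measureReal_def, Measure.addHaar_ball_of_pos _ _ h2r, ENNReal.toReal_mul,
      ENNReal.toReal_ofReal (by positivity), finrank_euclideanSpace_fin, measureReal_def]
  rw [hvol] at hA hB
  have hfinal : ∫ y in Metric.closedBall x r, ‖u y‖ ≤
      2 * (2 * r) ^ n + (‖a‖ + ‖b‖) * ((2 * r) ^ n * c) := by linarith
  refine hfinal.trans_eq ?_
  rw [mul_pow]
  ring

end Final

/-- For every first-order operator `𝓑 = ∑ j, B j ∂_j` on `ℝⁿ`, `n ≥ 2` (elliptic or not), every open
`Ω` and every `u ∈ L¹(Ω; V)` whose distributional image `𝓑 u` is a finite vector measure `ν`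
in `Ω`, the total variation of `ν` restricted to the jump set of `u` is absolutely continuous with
respect to the Hausdorff measure of dimension `n - 1`. -/
theorem result {n : ℕ} (hn : 2 ≤ n) {V W : Type*}
    [NormedAddCommGroup V] [InnerProductSpace ℝ V] [FiniteDimensional ℝ V]
    [NormedAddCommGroup W] [InnerProductSpace ℝ W] [FiniteDimensional ℝ W]
    (B : Fin n → V →ₗ[ℝ] W) (Ω : Set (Rn n)) (hΩ : IsOpen Ω) (u : Rn n → V)
    (hu : IntegrableOn u Ω) (ν : VectorMeasure (Rn n) W) (hν : IsWeakImage B Ω u ν) :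
    ν.variation.restrict (jumpSet Ω u) ≪ μH[(n : ℝ) - 1] := by
  have hcomp : ∀ l : W →L[ℝ] ℝ, ∀ N : Set (Rn n), N ⊆ growthSet Ω u → μH[(n : ℝ) - 1] N = 0 →
      (comp ν l).totalVariation N = 0 := by
    intro l N hN hH
    obtain ⟨i, hi, hpos, hneg, hp, hq⟩ := (comp ν l).toJordanDecomposition_spec
    have hp0 : (comp ν l).toJordanDecomposition.posPart iᶜ = 0 := by
      rw [hp, SignedMeasure.toMeasureOfZeroLE_apply _ hpos hi hi.compl]
      simp
    have hq0 : (comp ν l).toJordanDecomposition.negPart i = 0 := by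
      rw [hq, SignedMeasure.toMeasureOfLEZero_apply _ hneg hi.compl hi]
      simp
    have hB : ∀ j, Continuous (B j) := fun j => LinearMap.continuous_of_finiteDimensional _
    let L : Fin n → V →L[ℝ] ℝ := fun j => l.comp ⟨B j, hB j⟩
    have hd : ScalarDist (comp ν l).toJordanDecomposition.posPart
        (comp ν l).toJordanDecomposition.negPart L Ω u := by
      intro φ h1 h2 h3
      rw [← apply_integral ν l h1.continuous h2, hν φ h1 h2 h3, map_neg]
      congr 1
      have hint : Integrable (fun x => ∑ j, fderiv ℝ φ x (EuclideanSpace.single j (1 : ℝ)) •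
          B j (u x)) (volume.restrict Ω) := by
        refine integrable_finsetSum _ fun j _ => ?_
        have hBu : Integrable (fun x => B j (u x)) (volume.restrict Ω) :=
          ((⟨B j, hB j⟩ : V →L[ℝ] W).integrable_comp hu)
        have hcf : Continuous (fun x => fderiv ℝ φ x (EuclideanSpace.single j (1 : ℝ))) :=
          (h1.continuous_fderiv (by simp)).clm_apply continuous_const
        obtain ⟨C, hC⟩ := (h1.continuous_fderiv (by simp)).bounded_above_of_compact_support
          (h2.fderiv (𝕜 := ℝ))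
        refine hBu.bdd_smul C hcf.aestronglyMeasurable (Eventually.of_forall fun x => ?_)
        calc ‖fderiv ℝ φ x (EuclideanSpace.single j (1 : ℝ))‖
            ≤ ‖fderiv ℝ φ x‖ * ‖EuclideanSpace.single j (1 : ℝ)‖ := (fderiv ℝ φ x).le_opNorm _
          _ = ‖fderiv ℝ φ x‖ := by rw [PiLp.norm_single, norm_one, mul_one]
          _ ≤ C := hC x
      rw [← ContinuousLinearMap.integral_comp_comm l hint]
      congr 1
      ext x
      rw [map_sum]
      refine Finset.sum_congr rfl fun j _ => ?_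
      rw [map_smul, smul_eq_mul]
      rfl
    exact scalar_main hn _ _ hi hp0 hq0 L hΩ hu hd hN hH
  have hvar : ∀ N : Set (Rn n), N ⊆ growthSet Ω u → μH[(n : ℝ) - 1] N = 0 →
      ν.variation N = 0 := by
    intro N hN hH
    refine le_antisymm ((variation_le_sum ν N).trans ?_) zero_le
    rw [Measure.sum_apply_of_countable]
    simp [hcomp _ N hN hH]
  intro s hs
  have hms : MeasurableSet (toMeasurable μH[(n : ℝ) - 1] s) := measurableSet_toMeasurable _ _
  refine measure_mono_null (subset_toMeasurable μH[(n : ℝ) - 1] s) ?_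
  rw [Measure.restrict_apply hms]
  refine hvar _ (inter_subset_right.trans (jumpSet_subset_growthSet hΩ hu)) ?_
  refine measure_mono_null inter_subset_left ?_
  rw [measure_toMeasurable, hs]

end Pool.Agent.Results.MP_06111c_an.JumpAC
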